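import Mathlib

set_option autoImplicit false

namespace Pool.Agent.Results.MP_6460d1_co.Unbounded

open Matrix

/-- A split graph: the vertex set is partitioned into a clique and a stable set. -/
def IsSplit {V : Type} (G : SimpleGraph V) : Prop :=
  ∃ C S : Set V, Disjoint C S ∧ C ∪ S = Set.univ ∧ G.IsClique C ∧ G.IsIndepSet S

/-- The set of distinct adjacency eigenvalues. -/
def eigs {V : Type} [Fintype V] (G : SimpleGraph V) [DecidableRel G.Adj] : Set ℝ :=
  {μ | ∃ x : V → ℝ, x ≠ 0 ∧ G.adjMatrix ℝ *ᵥ x = μ • x}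

/-- blocks: all nonempty subsets, and further copies of the singletons -/
abbrev Bl (c : ℕ) : Type :=
  {s : Finset (Fin (c + 4)) // s.Nonempty} ⊕ Fin (c + 4) × Fin (2 ^ (c + 2) * (2 ^ (c + 2) - 2))

def blk {c : ℕ} : Bl c → Finset (Fin (c + 4))
  | .inl s => s.1
  | .inr p => {p.1}

theorem blk_ne {c : ℕ} (b : Bl c) : (blk b).Nonempty := by
  rcases b with s | p
  · exact s.2
  · exact Finset.singleton_nonempty _

def adj {c : ℕ} : Fin (c + 4) ⊕ Bl c → Fin (c + 4) ⊕ Bl c → Prop
  | .inl i, .inl j => i ≠ j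
  | .inl i, .inr b => i ∈ blk b
  | .inr b, .inl i => i ∈ blk b
  | .inr _, .inr _ => False

instance {c : ℕ} : DecidableRel (adj (c := c)) := fun u v => by
  rcases u with i | b <;> rcases v with j | d <;> unfold adj <;> infer_instance

def Gr (c : ℕ) : SimpleGraph (Fin (c + 4) ⊕ Bl c) where
  Adj := adj
  symm := ⟨by
    rintro (i | b) (j | d) h
    · exact Ne.symm h
    · exact h
    · exact h
    · exact h⟩
  loopless := ⟨by
    rintro (i | b) h
    · exact h rfl
    · exact h⟩

instance (c : ℕ) : DecidableRel (Gr c).Adj := inferInstanceAs (DecidableRel adj)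

theorem sup_count {n : ℕ} (t : Finset (Fin n)) (ht : t.Nonempty) :
    ∑ s : {s : Finset (Fin n) // s.Nonempty}, (if t ⊆ s.1 then (1 : ℝ) else 0) =
      2 ^ (n - t.card) := by
  rw [← Finset.sum_subtype (Finset.univ.filter fun s : Finset (Fin n) => s.Nonempty) (by simp)
    (fun s => if t ⊆ s then (1 : ℝ) else 0), Finset.sum_boole, Finset.filter_filter]
  have : (Finset.univ.filter fun s : Finset (Fin n) => s.Nonempty ∧ t ⊆ s) =
      Finset.Icc t Finset.univ := by
    ext s
    simp only [Finset.mem_filter, Finset.mem_univ, true_and, Finset.mem_Icc,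
      Finset.subset_univ, and_true]
    exact ⟨fun h => h.2, fun h => ⟨ht.mono h, h⟩⟩
  rw [this, Finset.card_Icc_finset (Finset.subset_univ t)]
  simp

theorem gram {c : ℕ} (i j : Fin (c + 4)) :
    ∑ b : Bl c, (if i ∈ blk b ∧ j ∈ blk b then (1 : ℝ) else 0) =
      (if i = j then (2 ^ (c + 2)) ^ 2 - 2 ^ (c + 2) else 0) + 2 ^ (c + 2) := by
  rw [Fintype.sum_sum_type, Fintype.sum_prod_type]
  have h1 := sup_count ({i, j} : Finset (Fin (c + 4))) (by simp)
  have h2 : 2 ≤ 2 ^ (c + 2) := by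
    have := Nat.one_le_two_pow (n := c)
    rw [pow_add]
    omega
  have h3 : ∑ s : {s : Finset (Fin (c + 4)) // s.Nonempty},
      (if i ∈ blk (Sum.inl s : Bl c) ∧ j ∈ blk (Sum.inl s : Bl c) then (1 : ℝ) else 0) =
      2 ^ (c + 4 - ({i, j} : Finset (Fin (c + 4))).card) := by
    rw [← h1]
    exact Finset.sum_congr rfl fun s _ => if_congr (by simp [blk, Finset.insert_subset_iff]) rfl rfl
  have h4 : ∀ (k : Fin (c + 4)) (r : Fin (2 ^ (c + 2) * (2 ^ (c + 2) - 2))),
      (if i ∈ blk (Sum.inr (k, r) : Bl c) ∧ j ∈ blk (Sum.inr (k, r) : Bl c) then (1 : ℝ) else 0) =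
      if i = k then (if i = j then 1 else 0) else 0 := by
    intro k r
    by_cases e : i = k
    · subst e
      rw [if_pos rfl]
      exact if_congr (by simp [blk, eq_comm]) rfl rfl
    · rw [if_neg e, if_neg]
      exact fun h => e (Finset.mem_singleton.1 h.1)
  rw [h3]
  simp only [h4]
  by_cases h : i = j
  · subst h
    simp [Nat.cast_sub h2]
    ring
  · rw [Finset.card_pair h]
    simp [h]

theorem mul_inl {c : ℕ} (x : Fin (c + 4) ⊕ Bl c → ℝ) (i : Fin (c + 4)) :
    ((Gr c).adjMatrix ℝ *ᵥ x) (.inl i) =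
      (∑ j, x (.inl j)) - x (.inl i) + ∑ b : Bl c, if i ∈ blk b then x (.inr b) else 0 := by
  simp only [Matrix.mulVec, dotProduct, SimpleGraph.adjMatrix_apply,
    Fintype.sum_sum_type (α₂ := Bl c), ite_mul, one_mul, zero_mul]
  congr 1
  have : ∀ j, (if (Gr c).Adj (.inl i) (.inl j) then x (.inl j) else 0) =
      x (.inl j) - if i = j then x (.inl j) else 0 := by
    intro j
    by_cases e : i = j
    · rw [if_neg (fun h : (Gr c).Adj (.inl i) (.inl j) => h e), if_pos e, sub_self]
    · rw [if_pos (show (Gr c).Adj (.inl i) (.inl j) from e), if_neg e, sub_zero]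
  simp [this]

theorem mul_inr {c : ℕ} (x : Fin (c + 4) ⊕ Bl c → ℝ) (b : Bl c) :
    ((Gr c).adjMatrix ℝ *ᵥ x) (.inr b) = ∑ j, if j ∈ blk b then x (.inl j) else 0 := by
  simp only [Matrix.mulVec, dotProduct, SimpleGraph.adjMatrix_apply,
    Fintype.sum_sum_type (α₂ := Bl c), ite_mul, one_mul, zero_mul]
  rw [Finset.sum_eq_zero (f := fun d : Bl c =>
    if (Gr c).Adj (.inr b) (.inr d) then x (.inr d) else 0) fun d _ => if_neg id, add_zero]
  exact Finset.sum_congr rfl fun j _ => if_congr Iff.rfl rfl rfl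

theorem double {c : ℕ} (y : Fin (c + 4) → ℝ) (i : Fin (c + 4)) :
    ∑ b : Bl c, (if i ∈ blk b then ∑ j, (if j ∈ blk b then y j else 0) else 0) =
      ((2 ^ (c + 2)) ^ 2 - 2 ^ (c + 2)) * y i + 2 ^ (c + 2) * ∑ j, y j := by
  have h1 : ∀ b : Bl c, (if i ∈ blk b then ∑ j, (if j ∈ blk b then y j else 0) else 0) =
      ∑ j, (if i ∈ blk b ∧ j ∈ blk b then (1 : ℝ) else 0) * y j := by
    intro b
    by_cases h : i ∈ blk b <;> simp [h]
  simp only [h1]
  rw [Finset.sum_comm]
  simp only [← Finset.sum_mul, gram]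
  simp only [add_mul, Finset.sum_add_distrib, ite_mul, zero_mul,
    Finset.sum_ite_eq, Finset.mem_univ, if_true, Finset.mul_sum]

theorem eig_of {c : ℕ} (μ : ℝ) (hμ : μ ≠ 0) (y : Fin (c + 4) → ℝ) (hy : y 0 ≠ 0)
    (h : ∀ i, (μ ^ 2 + μ - (2 ^ (c + 2)) ^ 2 + 2 ^ (c + 2)) * y i =
      (μ + 2 ^ (c + 2)) * ∑ j, y j) : μ ∈ eigs (Gr c) := by
  refine ⟨Sum.elim (fun i => μ * y i) fun b => ∑ j, if j ∈ blk b then y j else 0,
    fun h0 => mul_ne_zero hμ hy (congrFun h0 (.inl 0)), ?_⟩
  ext (i | b)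
  · rw [mul_inl]
    simp only [Sum.elim_inl, Sum.elim_inr, double, Pi.smul_apply, smul_eq_mul, ← Finset.mul_sum]
    linear_combination -h i
  · rw [mul_inr]
    simp only [Sum.elim_inl, Sum.elim_inr, Pi.smul_apply, smul_eq_mul, Finset.mul_sum, mul_ite,
      mul_zero]

theorem eigs_eq (c : ℕ) :
    eigs (Gr c) = {(c : ℝ) + 3 + 2 ^ (c + 2), 2 ^ (c + 2) - 1, 0, -2 ^ (c + 2)} := by
  have hm : (4 : ℝ) ≤ 2 ^ (c + 2) := by
    have : (1 : ℝ) ≤ 2 ^ c := one_le_pow₀ (by norm_num)
    rw [pow_add]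
    linarith
  have hc : (0 : ℝ) ≤ c := Nat.cast_nonneg c
  ext μ
  simp only [Set.mem_insert_iff, Set.mem_singleton_iff]
  constructor
  · rintro ⟨x, hx, h⟩
    by_contra hh
    simp only [not_or] at hh
    obtain ⟨p1, p2, p3, p4⟩ := hh
    have h1 : ∀ b, μ * x (.inr b) = ∑ j, if j ∈ blk b then x (.inl j) else 0 := fun b => by
      rw [← mul_inr, h]
      rfl
    have h2 : ∀ i, (μ ^ 2 + μ - (2 ^ (c + 2)) ^ 2 + 2 ^ (c + 2)) * x (.inl i) =
        (μ + 2 ^ (c + 2)) * ∑ j, x (.inl j) := fun i => by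
      have e1 : μ * x (.inl i) = _ := (congrFun h (.inl i)).symm.trans (mul_inl x i)
      have e2 := double (fun j => x (.inl j)) i
      have e3 : μ * ∑ b : Bl c, (if i ∈ blk b then x (.inr b) else 0) =
          ∑ b : Bl c, (if i ∈ blk b then ∑ j, (if j ∈ blk b then x (.inl j) else 0) else 0) := by
        simp only [Finset.mul_sum, mul_ite, mul_zero, h1]
      linear_combination μ * e1 + e3 + e2
    have q1 : μ + 2 ^ (c + 2) ≠ 0 := fun e => p4 (by linarith)
    have h3 : ∑ j, x (.inl j) = 0 := by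
      have e1 := Finset.sum_congr rfl fun i (_ : i ∈ Finset.univ) => h2 i
      rw [← Finset.mul_sum, Finset.sum_const, Finset.card_univ, Fintype.card_fin,
        nsmul_eq_mul] at e1
      push_cast at e1
      have e2 : (μ + 2 ^ (c + 2)) * ((μ - (c + 3 + 2 ^ (c + 2))) * ∑ j, x (.inl j)) = 0 := by
        linear_combination e1
      exact (mul_eq_zero.1 ((mul_eq_zero.1 e2).resolve_left q1)).resolve_left (sub_ne_zero.2 p1)
    have h4 : ∀ i, x (.inl i) = 0 := fun i => by
      have e1 := h2 i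
      rw [h3] at e1
      have e2 : (μ + 2 ^ (c + 2)) * ((μ - (2 ^ (c + 2) - 1)) * x (.inl i)) = 0 := by
        linear_combination e1
      exact (mul_eq_zero.1 ((mul_eq_zero.1 e2).resolve_left q1)).resolve_left (sub_ne_zero.2 p2)
    refine hx (funext ?_)
    rintro (i | b)
    · exact h4 i
    · have := h1 b
      simp only [h4, ite_self, Finset.sum_const_zero] at this
      exact (mul_eq_zero.1 this).resolve_left p3
  · rintro (rfl | rfl | rfl | rfl)
    · refine eig_of _ (by linarith) (fun _ => 1) one_ne_zero fun i => ?_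
      simp only [Finset.sum_const, Finset.card_univ, Fintype.card_fin, nsmul_eq_mul]
      push_cast
      ring
    · refine eig_of _ (by linarith) (Pi.single 0 1 - Pi.single 1 1) (by simp) fun i => ?_
      simp only [Pi.sub_apply, Finset.sum_sub_distrib, Finset.sum_pi_single', Finset.mem_univ,
        if_true]
      ring
    · have h2 : 0 < 2 ^ (c + 2) * (2 ^ (c + 2) - 2) := by
        have : 4 ≤ 2 ^ (c + 2) := by exact_mod_cast hm
        exact Nat.mul_pos (by omega) (by omega)
      let b1 : Bl c := .inl ⟨{0}, by simp⟩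
      let b2 : Bl c := .inr (0, ⟨0, h2⟩)
      have hb : b1 ≠ b2 := by simp [b1, b2]
      refine ⟨Sum.elim 0 (Pi.single b1 1 - Pi.single b2 1), fun h0 => ?_, ?_⟩
      · have := congrFun h0 (.inr b1)
        simp [hb] at this
      · ext (i | b)
        · rw [mul_inl]
          have e : ∀ b : Bl c, (if i ∈ blk b then
              (Pi.single b1 1 - Pi.single b2 1 : Bl c → ℝ) b else 0) =
              (Pi.single b1 (if i = 0 then 1 else 0) : Bl c → ℝ) b -
                (Pi.single b2 (if i = 0 then 1 else 0) : Bl c → ℝ) b := by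
            intro b
            by_cases e1 : b = b1
            · subst e1
              simp [hb, b1, blk]
            · by_cases e2 : b = b2
              · subst e2
                by_cases e3 : i = 0 <;> simp [e1, b2, blk, e3]
              · simp [e1, e2]
          simp only [Sum.elim_inl, Sum.elim_inr, e, Finset.sum_sub_distrib, Finset.sum_pi_single']
          simp
        · rw [mul_inr]
          simp
    · refine eig_of _ (by linarith) (fun _ => 1) one_ne_zero fun i => ?_
      ring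

theorem walk3 (c : ℕ) (u v : Fin (c + 4) ⊕ Bl c) :
    ∃ p : (Gr c).Walk u v, p.length ≤ 3 := by
  have h1 : ∀ i j : Fin (c + 4), ∃ p : (Gr c).Walk (.inl i) (.inl j), p.length ≤ 1 := by
    intro i j
    by_cases h : i = j
    · subst h
      exact ⟨.nil, by simp⟩
    · exact ⟨.cons (show (Gr c).Adj (.inl i) (.inl j) from h) .nil, by simp⟩
  have h2 : ∀ u : Fin (c + 4) ⊕ Bl c, ∃ i, ∃ p : (Gr c).Walk u (.inl i), p.length ≤ 1 := by
    rintro (i | b)
    · exact ⟨i, .nil, by simp⟩
    · obtain ⟨i, hi⟩ := blk_ne b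
      exact ⟨i, .cons (show (Gr c).Adj (.inr b) (.inl i) from hi) .nil, by simp⟩
  obtain ⟨i, p, hp⟩ := h2 u
  obtain ⟨j, q, hq⟩ := h2 v
  obtain ⟨r, hr⟩ := h1 i j
  refine ⟨p.append (r.append q.reverse), ?_⟩
  simp only [SimpleGraph.Walk.length_append, SimpleGraph.Walk.length_reverse]
  omega

theorem ediam_eq (c : ℕ) : (Gr c).ediam = 3 := by
  refine le_antisymm (SimpleGraph.ediam_le_iff.2 fun u v => ?_) ?_
  · obtain ⟨p, hp⟩ := walk3 c u v
    exact (SimpleGraph.edist_le p).trans (by exact_mod_cast hp)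
  · let u : Fin (c + 4) ⊕ Bl c := .inr (.inl ⟨{0}, by simp⟩)
    let v : Fin (c + 4) ⊕ Bl c := .inr (.inl ⟨{1}, by simp⟩)
    refine le_trans ?_ (SimpleGraph.edist_le_ediam (u := u) (v := v))
    obtain ⟨p0, -⟩ := walk3 c u v
    obtain ⟨p, hp⟩ := p0.reachable.exists_walk_length_eq_edist
    rw [← hp]
    have key : ∀ (a b : Fin (c + 4) ⊕ Bl c) (p : (Gr c).Walk a b), p.length < 3 →
        a = b ∨ (Gr c).Adj a b ∨ ∃ w, (Gr c).Adj a w ∧ (Gr c).Adj w b := by
      intro a b p hp
      match p, hp with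
      | .nil, _ => exact Or.inl rfl
      | .cons h .nil, _ => exact Or.inr (Or.inl h)
      | .cons h (.cons h' .nil), _ => exact Or.inr (Or.inr ⟨_, h, h'⟩)
      | .cons _ (.cons _ (.cons _ _)), hp => simp at hp; omega
    by_contra hh
    have h3 : p.length < 3 := by
      rw [not_le] at hh
      exact_mod_cast hh
    rcases key u v p h3 with h | h | ⟨w, h, h'⟩
    · simp [u, v] at h
    · exact h
    · rcases w with i | b
      · have e1 : i = 0 := Finset.mem_singleton.1 h
        have e2 : i = 1 := Finset.mem_singleton.1 h'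
        simp [e1] at e2
      · exact h

theorem deg_inr (c : ℕ) (b : Bl c) : (Gr c).degree (.inr b) = (blk b).card := by
  have : (Gr c).neighborFinset (.inr b) = (blk b).map ⟨Sum.inl, Sum.inl_injective⟩ := by
    ext (i | d) <;> simp [Gr, adj]
  rw [← SimpleGraph.card_neighborFinset_eq_degree, this, Finset.card_map]

/-- Connected split graphs of diameter `3` with exactly four distinct eigenvalues and
arbitrarily many distinct degrees. -/
theorem result (N : ℕ) : ∃ (V : Type) (_ : Fintype V) (_ : DecidableEq V) (G : SimpleGraph V)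
    (_ : DecidableRel G.Adj), G.Connected ∧ IsSplit G ∧ G.ediam = 3 ∧ (eigs G).ncard = 4 ∧
      N < (Finset.univ.image fun v => G.degree v).card := by
  refine ⟨Fin (N + 4) ⊕ Bl N, inferInstance, inferInstance, Gr N, inferInstance,
    ⟨fun u v => (walk3 N u v).choose.reachable⟩, ?_, ediam_eq N, ?_, ?_⟩
  · refine ⟨Set.range Sum.inl, Set.range Sum.inr, Set.isCompl_range_inl_range_inr.disjoint,
      Set.range_inl_union_range_inr, ?_, ?_⟩
    · rintro _ ⟨i, rfl⟩ _ ⟨j, rfl⟩ h e
      exact h (congrArg _ e)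
    · rintro _ ⟨i, rfl⟩ _ ⟨j, rfl⟩ _ h
      exact h
  · have hm : (4 : ℝ) ≤ 2 ^ (N + 2) := by
      have : (1 : ℝ) ≤ 2 ^ N := one_le_pow₀ (by norm_num)
      rw [pow_add]
      linarith
    have hc : (0 : ℝ) ≤ N := Nat.cast_nonneg N
    rw [eigs_eq, Set.ncard_eq_four]
    refine ⟨_, _, _, _, ?_, ?_, ?_, ?_, ?_, ?_, rfl⟩ <;> intro h <;> linarith
  · have h1 : Finset.Icc 1 (N + 4) ⊆ Finset.univ.image fun v => (Gr N).degree v := by
      intro k hk
      rw [Finset.mem_Icc] at hk
      obtain ⟨s, -, hs⟩ := Finset.exists_subset_card_eq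
        (s := (Finset.univ : Finset (Fin (N + 4)))) (n := k) (by simpa using hk.2)
      exact Finset.mem_image.2 ⟨.inr (.inl ⟨s, Finset.card_pos.1 (by omega)⟩),
        Finset.mem_univ _, (deg_inr _ _).trans hs⟩
    have := Finset.card_le_card h1
    rw [Nat.card_Icc] at this
    omega

end Pool.Agent.Results.MP_6460d1_co.Unbounded
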